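import Mathlib

/-!
# Square tables with three rows

For every n there are three distinct integers a_i and n distinct integers b_j such that all
3n sums a_i + b_j are squares.

The sums come from one rational point on an elliptic curve, doubled again and again.
If V^2 + 3 Z^2 = S^2 and V^2 + 8 Z^2 = R^2, then
V' = V^4 - 24 Z^4, Z' = 2 V S R Z, S' = V^4 + 6 V^2 Z^2 + 24 Z^4, R' = V^4 + 16 V^2 Z^2 + 24 Z^4
satisfy the same two equations. The power of 2 in the denominator Z grows at each step,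
so the values V / Z are pairwise different, and a common denominator gives integers.
-/

namespace Pool.Agent.Results.MP_79d058_nt.ThreeRows

/-- An (m, n)-square table: integers a_1, ..., a_m pairwise distinct, integers b_1, ..., b_n
pairwise distinct, with every sum a_i + b_j the square of an integer. -/
def IsSquareTable (m n : ℕ) (a : Fin m → ℤ) (b : Fin n → ℤ) : Prop :=
  Function.Injective a ∧ Function.Injective b ∧ ∀ i j, ∃ k : ℤ, a i + b j = k ^ 2

/-- A state of the doubling recursion. -/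
structure St where
  V : ℤ
  S : ℤ
  R : ℤ
  Z : ℤ
  h3 : V ^ 2 + 3 * Z ^ 2 = S ^ 2
  h8 : V ^ 2 + 8 * Z ^ 2 = R ^ 2
  oV : Odd V
  oS : Odd S
  oR : Odd R
  zZ : Z ≠ 0
  eZ : Even Z

/-- One doubling step. -/
def step (s : St) : St where
  V := s.V ^ 4 - 24 * s.Z ^ 4
  S := s.V ^ 4 + 6 * s.V ^ 2 * s.Z ^ 2 + 24 * s.Z ^ 4
  R := s.V ^ 4 + 16 * s.V ^ 2 * s.Z ^ 2 + 24 * s.Z ^ 4
  Z := 2 * s.V * s.S * s.R * s.Z
  h3 := by
    have h3 := s.h3
    have h8 := s.h8
    have e : (2 * s.V * s.S * s.R * s.Z) ^ 2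
        = 4 * s.V ^ 2 * (s.V ^ 2 + 3 * s.Z ^ 2) * (s.V ^ 2 + 8 * s.Z ^ 2) * s.Z ^ 2 := by
      rw [h3, h8]; ring
    rw [e]; ring
  h8 := by
    have h3 := s.h3
    have h8 := s.h8
    have e : (2 * s.V * s.S * s.R * s.Z) ^ 2
        = 4 * s.V ^ 2 * (s.V ^ 2 + 3 * s.Z ^ 2) * (s.V ^ 2 + 8 * s.Z ^ 2) * s.Z ^ 2 := by
      rw [h3, h8]; ring
    rw [e]; ring
  oV := by
    have h := s.oV.pow (n := 4)
    have h2 : Even (24 * s.Z ^ 4) := ⟨12 * s.Z ^ 4, by ring⟩
    exact h.sub_even h2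
  oS := by
    have h := s.oV.pow (n := 4)
    have h2 : Even (6 * s.V ^ 2 * s.Z ^ 2) := ⟨3 * s.V ^ 2 * s.Z ^ 2, by ring⟩
    have h3 : Even (24 * s.Z ^ 4) := ⟨12 * s.Z ^ 4, by ring⟩
    exact (h.add_even h2).add_even h3
  oR := by
    have h := s.oV.pow (n := 4)
    have h2 : Even (16 * s.V ^ 2 * s.Z ^ 2) := ⟨8 * s.V ^ 2 * s.Z ^ 2, by ring⟩
    have h3 : Even (24 * s.Z ^ 4) := ⟨12 * s.Z ^ 4, by ring⟩
    exact (h.add_even h2).add_even h3
  zZ := by
    have nz : ∀ {x : ℤ}, Odd x → x ≠ 0 := by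
      intro x hx h0
      rw [h0] at hx
      exact absurd hx (by decide)
    exact mul_ne_zero (mul_ne_zero (mul_ne_zero (mul_ne_zero two_ne_zero (nz s.oV)) (nz s.oS))
      (nz s.oR)) s.zZ
  eZ := ⟨s.V * s.S * s.R * s.Z, by ring⟩

/-- The starting state, the double of the integral point 1. -/
def st0 : St where
  V := 23
  S := 31
  R := 41
  Z := 12
  h3 := by norm_num
  h8 := by norm_num
  oV := by decide
  oS := by decide
  oR := by decide
  zZ := by norm_num
  eZ := by decide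

/-- The sequence of states. -/
def seq : ℕ → St
  | 0 => st0
  | k + 1 => step (seq k)

/-- Z_(i+d+1) is an even multiple of Z_i. -/
lemma Z_dvd (i d : ℕ) : ∃ c : ℤ, (seq (i + d + 1)).Z = 2 * c * (seq i).Z := by
  induction d with
  | zero =>
    refine ⟨(seq i).V * (seq i).S * (seq i).R, ?_⟩
    show 2 * (seq i).V * (seq i).S * (seq i).R * (seq i).Z = _
    ring
  | succ d ih =>
    obtain ⟨c, hc⟩ := ih
    refine ⟨2 * (seq (i + d + 1)).V * (seq (i + d + 1)).S * (seq (i + d + 1)).R * c, ?_⟩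
    show 2 * (seq (i + d + 1)).V * (seq (i + d + 1)).S * (seq (i + d + 1)).R
      * (seq (i + d + 1)).Z = _
    rw [hc]; ring

lemma Z_dvd_le {i n : ℕ} (h : i ≤ n) : ∃ c : ℤ, (seq n).Z = c * (seq i).Z := by
  rcases Nat.lt_or_ge i n with h1 | h1
  · obtain ⟨d, rfl⟩ := Nat.exists_eq_add_of_lt h1
    obtain ⟨c, hc⟩ := Z_dvd i d
    exact ⟨2 * c, hc⟩
  · obtain rfl : i = n := le_antisymm h h1
    exact ⟨1, by ring⟩

/-- Different states give different values of (V/Z)^2. -/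
lemma ratio_ne {i j : ℕ} (h : i < j) :
    ((seq i).V * (seq j).Z) ^ 2 ≠ ((seq j).V * (seq i).Z) ^ 2 := by
  intro he
  obtain ⟨d, rfl⟩ := Nat.exists_eq_add_of_lt h
  obtain ⟨c, hc⟩ := Z_dvd i d
  rw [hc] at he
  have hz := (seq i).zZ
  have hz2 : (seq i).Z ^ 2 ≠ 0 := pow_ne_zero 2 hz
  have h1 : ((seq i).V * 2 * c) ^ 2 = (seq (i + d + 1)).V ^ 2 := by
    apply mul_right_cancel₀ hz2
    calc ((seq i).V * 2 * c) ^ 2 * (seq i).Z ^ 2
        = ((seq i).V * (2 * c * (seq i).Z)) ^ 2 := by ring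
      _ = ((seq (i + d + 1)).V * (seq i).Z) ^ 2 := he
      _ = (seq (i + d + 1)).V ^ 2 * (seq i).Z ^ 2 := by ring
  have ho : Odd ((seq (i + d + 1)).V ^ 2) := (seq (i + d + 1)).oV.pow
  rw [← h1] at ho
  have he2 : Even (((seq i).V * 2 * c) ^ 2) := ⟨2 * (seq i).V ^ 2 * c ^ 2, by ring⟩
  exact (Int.not_even_iff_odd.mpr ho) he2

/-- For every n there is a (3, n)-square table. -/
theorem three_rows : ∀ n : ℕ, ∃ (a : Fin 3 → ℤ) (b : Fin n → ℤ), IsSquareTable 3 n a b := by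
  intro n
  have hN := (seq n).zZ
  set N : ℤ := (seq n).Z with hNdef
  have hc : ∀ j : Fin n, ∃ c : ℤ, N = c * (seq j).Z := fun j => Z_dvd_le j.2.le
  choose c hc using hc
  have hN2 : 0 < N ^ 2 := by positivity
  refine ⟨![0, 3 * N ^ 2, 8 * N ^ 2], fun j => (c j * (seq j).V) ^ 2, ?_, ?_, ?_⟩
  · intro i j hij
    fin_cases i <;> fin_cases j <;> simp at hij ⊢ <;> exact absurd hij hN
  · have key : ∀ i j : Fin n, (i : ℕ) < (j : ℕ) →
        (c i * (seq i).V) ^ 2 ≠ (c j * (seq j).V) ^ 2 := by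
      intro i j hij he
      apply ratio_ne hij
      have hci : c i ≠ 0 := by
        intro h0; apply hN; rw [hc i, h0, zero_mul]
      have hcj : c j ≠ 0 := by
        intro h0; apply hN; rw [hc j, h0, zero_mul]
      have e : c i * (seq i).Z = c j * (seq j).Z := by rw [← hc i, ← hc j]
      have hcc : (c i * c j) ^ 2 ≠ 0 := pow_ne_zero 2 (mul_ne_zero hci hcj)
      apply mul_left_cancel₀ hcc
      calc (c i * c j) ^ 2 * ((seq i).V * (seq j).Z) ^ 2
          = (c i * (seq i).V) ^ 2 * (c j * (seq j).Z) ^ 2 := by ring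
        _ = (c j * (seq j).V) ^ 2 * (c i * (seq i).Z) ^ 2 := by rw [he, e]
        _ = (c i * c j) ^ 2 * ((seq j).V * (seq i).Z) ^ 2 := by ring
    intro i j hij
    by_contra hne
    rcases lt_or_gt_of_ne (fun h => hne (Fin.ext h) : (i : ℕ) ≠ (j : ℕ)) with h | h
    · exact key i j h hij
    · exact key j i h hij.symm
  · intro i j
    have h3 := (seq j).h3
    have h8 := (seq j).h8
    fin_cases i
    · exact ⟨c j * (seq j).V, by simp⟩
    · refine ⟨c j * (seq j).S, ?_⟩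
      show 3 * N ^ 2 + (c j * (seq j).V) ^ 2 = _
      rw [hc j]
      linear_combination (c j) ^ 2 * h3
    · refine ⟨c j * (seq j).R, ?_⟩
      show 8 * N ^ 2 + (c j * (seq j).V) ^ 2 = _
      rw [hc j]
      linear_combination (c j) ^ 2 * h8

/-- Every pair (m, n) with m at most 3 or n at most 3 is admissible: an (m, n)-square table
exists. -/
theorem result : ∀ m n : ℕ, (m ≤ 3 ∨ n ≤ 3) →
    ∃ (a : Fin m → ℤ) (b : Fin n → ℤ), IsSquareTable m n a b := by
  have rows : ∀ m n : ℕ, m ≤ 3 → ∃ (a : Fin m → ℤ) (b : Fin n → ℤ), IsSquareTable m n a b := by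
    intro m n hm
    obtain ⟨a, b, ha, hb, hab⟩ := three_rows n
    refine ⟨fun i => a (Fin.castLE hm i), b, ?_, hb, fun i j => hab _ j⟩
    exact ha.comp (Fin.castLE_injective hm)
  rintro m n (hm | hn)
  · exact rows m n hm
  · obtain ⟨a, b, ha, hb, hab⟩ := rows n m hn
    refine ⟨b, a, hb, ha, fun i j => ?_⟩
    obtain ⟨k, hk⟩ := hab j i
    exact ⟨k, by rw [← hk]; ring⟩

end Pool.Agent.Results.MP_79d058_nt.ThreeRows
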